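import Mathlib

/-!
Weak relative Dixmier property of irreducible inclusions with normal conditional expectation
(MP_7e3bdd_an, second question): definitions and exact statements of the tasks.
-/

set_option autoImplicit false
open scoped InnerProductSpace Topology
open Filter

namespace Pool.Agent.W988.WD

section defs

variable {H : Type} [NormedAddCommGroup H] [InnerProductSpace ℂ H] [CompleteSpace H]

/-- (orthogonal) projections -/
def Prj (e : H →L[ℂ] H) : Prop := star e = e ∧ e * e = e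

/-- factors: the centre is trivial -/
def Factor (N : VonNeumannAlgebra H) : Prop :=
  ∀ z ∈ N, (∀ y ∈ N, z * y = y * z) → ∃ c : ℂ, z = c • (1 : H →L[ℂ] H)

/-- the relative commutant of `N` in `M` is trivial -/
def IrredIn (N M : VonNeumannAlgebra H) : Prop :=
  ∀ z ∈ M, (∀ y ∈ N, z * y = y * z) → ∃ c : ℂ, z = c • (1 : H →L[ℂ] H)

/-- the function `f` is a normal (ultraweakly continuous) linear functional on `M` -/
def NormalOn (M : VonNeumannAlgebra H) (f : (H →L[ℂ] H) → ℂ) : Prop :=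
  ∃ s t : ℕ → H, (Summable fun n => ‖s n‖ ^ 2) ∧ (Summable fun n => ‖t n‖ ^ 2) ∧
    ∀ x ∈ M, f x = ∑' n, ⟪t n, x (s n)⟫_ℂ

/-- the function `E` restricts to a normal conditional expectation of `M` onto `N` -/
structure IsNCE (N M : VonNeumannAlgebra H) (E : (H →L[ℂ] H) → (H →L[ℂ] H)) : Prop where
  mem : ∀ x ∈ M, E x ∈ N
  add : ∀ x ∈ M, ∀ y ∈ M, E (x + y) = E x + E y
  smul : ∀ c : ℂ, ∀ x ∈ M, E (c • x) = c • E x
  one : E 1 = 1
  pos : ∀ x ∈ M, x.IsPositive → (E x).IsPositive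
  bimod : ∀ a ∈ N, ∀ b ∈ N, ∀ x ∈ M, E (a * x * b) = a * E x * b
  normal : ∀ ξ η : H, NormalOn M fun x => ⟪η, E x ξ⟫_ℂ

/-- `t` restricts to a faithful normal tracial state of `N` -/
structure IsTrace (N : VonNeumannAlgebra H) (t : (H →L[ℂ] H) → ℂ) : Prop where
  normal : NormalOn N t
  one : t 1 = 1
  pos : ∀ x ∈ N, 0 ≤ (t (star x * x)).re
  faithful : ∀ x ∈ N, (t (star x * x)).re ≤ 0 → x = 0
  comm : ∀ x ∈ N, ∀ y ∈ N, t (x * y) = t (y * x)

/-- `N` is infinite: it contains an isometry that is not unitary -/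
def Infin (N : VonNeumannAlgebra H) : Prop := ∃ v ∈ N, star v * v = 1 ∧ v * star v ≠ 1

/-- the unitary conjugates of `x` by `N` -/
def Conj (N : VonNeumannAlgebra H) (x : H →L[ℂ] H) : Set (H →L[ℂ] H) :=
  {T | ∃ u ∈ unitary (H →L[ℂ] H), u ∈ N ∧ T = u * x * star u}

/-- the weak operator closure of the convex hull of the unitary conjugates of `x` by `N` -/
def KN (N : VonNeumannAlgebra H) (x : H →L[ℂ] H) : Set (H →L[ℂ] H) :=
  {z | ∀ (n : ℕ) (ξ η : Fin n → H) (ε : ℝ), 0 < ε →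
    ∃ y ∈ convexHull ℝ (Conj N x), ∀ i : Fin n, ‖⟪η i, (y - z) (ξ i)⟫_ℂ‖ < ε}

/-- convergence in the weak operator topology -/
def WLim {ι : Type} (F : Filter ι) (z : ι → (H →L[ℂ] H)) (w : H →L[ℂ] H) : Prop :=
  ∀ ξ η : H, Tendsto (fun i => ⟪η, z i ξ⟫_ℂ) F (𝓝 ⟪η, w ξ⟫_ℂ)

/-- `g 0, g 1, ...` are isometries from the range of the projection `e` onto mutually orthogonal
subspaces with dense sum -/
structure MUnits (N : VonNeumannAlgebra H) (e : H →L[ℂ] H) (g : ℕ → (H →L[ℂ] H)) : Prop where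
  mem : ∀ n, g n ∈ N
  ini : ∀ n, star (g n) * g n = e
  ort : ∀ m n, m ≠ n → star (g m) * g n = 0
  prj : Prj e
  nz : e ≠ 0
  tot : ∀ ξ : H, (∀ n, star (g n) ξ = 0) → ξ = 0

end defs

/-! ### Statements of the tasks -/

/-- CPT: bounded families have weak operator limits along ultrafilters, and von Neumann algebras
are closed under such limits. -/
def S_CPT : Prop :=
  ∀ (H : Type) [NormedAddCommGroup H] [InnerProductSpace ℂ H] [CompleteSpace H] (ι : Type)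
    (U : Ultrafilter ι) (z : ι → (H →L[ℂ] H)),
    (∀ R : ℝ, (∀ i, ‖z i‖ ≤ R) → ∃ w : H →L[ℂ] H, ‖w‖ ≤ R ∧ WLim (U : Filter ι) z w) ∧
    ∀ (w : H →L[ℂ] H), WLim (U : Filter ι) z w → ∀ M : VonNeumannAlgebra H,
      (∀ i, z i ∈ M) → w ∈ M

/-- LOC: nonzero projections of a factor have nonzero equivalent subprojections. -/
def S_LOC : Prop :=
  ∀ (H : Type) [NormedAddCommGroup H] [InnerProductSpace ℂ H] [CompleteSpace H]
    (N : VonNeumannAlgebra H), Factor N → ∀ e ∈ N, ∀ f ∈ N, Prj e → Prj f → e ≠ 0 → f ≠ 0 →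
    ∃ v ∈ N, v ≠ 0 ∧ v * star v * v = v ∧ v * e = v ∧ f * v = v

/-- ZSUM: sums of partial isometries with orthogonal initial and final spaces. -/
def S_ZSUM : Prop :=
  ∀ (H : Type) [NormedAddCommGroup H] [InnerProductSpace ℂ H] [CompleteSpace H]
    (N : VonNeumannAlgebra H) (ι : Type) (v : ι → (H →L[ℂ] H)), (∀ i, v i ∈ N) →
    (∀ i, v i * star (v i) * v i = v i) → (∀ i j, i ≠ j → star (v i) * v j = 0) →
    (∀ i j, i ≠ j → v i * star (v j) = 0) →
    ∃ V ∈ N, V * star V * V = V ∧ (∀ i, V * (star (v i) * v i) = v i) ∧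
      (∀ i, v i * star (v i) * V = v i) ∧
      (∀ ξ : H, (∀ i, v i ξ = 0) → V ξ = 0) ∧ (∀ ξ : H, (∀ i, star (v i) ξ = 0) → star V ξ = 0)

/-- CMP: comparison of projections. -/
def S_CMP : Prop :=
  ∀ (H : Type) [NormedAddCommGroup H] [InnerProductSpace ℂ H] [CompleteSpace H]
    (N : VonNeumannAlgebra H), Factor N → ∀ e ∈ N, ∀ f ∈ N, Prj e → Prj f →
    (∃ v ∈ N, star v * v = e ∧ f * v = v) ∨ ∃ v ∈ N, star v * v = f ∧ e * v = v

/-- ABS: a projection that contains infinitely many orthogonal copies of a nonzero projection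
absorbs every projection. -/
def S_ABS : Prop :=
  ∀ (H : Type) [NormedAddCommGroup H] [InnerProductSpace ℂ H] [CompleteSpace H]
    [TopologicalSpace.SeparableSpace H]
    (N : VonNeumannAlgebra H), Factor N → ∀ p ∈ N, ∀ q ∈ N, ∀ r ∈ N, Prj p → Prj q → Prj r →
    r ≠ 0 → ∀ w : ℕ → (H →L[ℂ] H), (∀ n, w n ∈ N) → (∀ n, star (w n) * w n = r) →
    (∀ m n, m ≠ n → star (w m) * w n = 0) → (∀ n, p * w n = w n) →
    ∃ v ∈ N, star v * v = q ∧ p * v = v

/-- MU: infinite factors contain infinite systems of matrix units. -/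
def S_MU : Prop :=
  ∀ (H : Type) [NormedAddCommGroup H] [InnerProductSpace ℂ H] [CompleteSpace H]
    [TopologicalSpace.SeparableSpace H]
    (N : VonNeumannAlgebra H), Factor N → Infin N → ∃ (e : H →L[ℂ] H) (g : ℕ → (H →L[ℂ] H)),
      MUnits N e g

/-- SPEC: a nonzero positive element of a von Neumann algebra dominates a positive multiple of a
nonzero projection. -/
def S_SPEC : Prop :=
  ∀ (H : Type) [NormedAddCommGroup H] [InnerProductSpace ℂ H] [CompleteSpace H]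
    (N : VonNeumannAlgebra H), ∀ b ∈ N, b.IsPositive → b ≠ 0 →
    ∃ p ∈ N, Prj p ∧ p ≠ 0 ∧ ∃ δ : ℝ, 0 < δ ∧
      ∀ ξ : H, δ * (⟪ξ, p ξ⟫_ℂ).re ≤ (⟪ξ, b ξ⟫_ℂ).re

/-- GEN: the algebra is generated by the matrix units and their commutant. -/
def S_GEN : Prop :=
  ∀ (H : Type) [NormedAddCommGroup H] [InnerProductSpace ℂ H] [CompleteSpace H]
    (N : VonNeumannAlgebra H) (e : H →L[ℂ] H) (g : ℕ → (H →L[ℂ] H)), MUnits N e g →
    ∀ z : H →L[ℂ] H, (∀ i j, z * (g i * star (g j)) = g i * star (g j) * z) →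
    (∀ u ∈ unitary (H →L[ℂ] H), u ∈ N →
      (∀ i j, u * (g i * star (g j)) = g i * star (g j) * u) → z * u = u * z) →
    ∀ y ∈ N, z * y = y * z

/-- AVG: a nonempty closed convex invariant set contains an element that commutes with the
matrix units. -/
def S_AVG : Prop :=
  ∀ (H : Type) [NormedAddCommGroup H] [InnerProductSpace ℂ H] [CompleteSpace H]
    (N : VonNeumannAlgebra H) (e : H →L[ℂ] H) (g : ℕ → (H →L[ℂ] H)), MUnits N e g →
    ∀ C : Set (H →L[ℂ] H), C.Nonempty → Convex ℝ C → (∃ R : ℝ, ∀ z ∈ C, ‖z‖ ≤ R) →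
    (∀ u ∈ unitary (H →L[ℂ] H), u ∈ N → ∀ z ∈ C, u * z * star u ∈ C) →
    (∀ (U : Ultrafilter ℕ) (z : ℕ → (H →L[ℂ] H)) (w : H →L[ℂ] H), (∀ i, z i ∈ C) →
      WLim (U : Filter ℕ) z w → w ∈ C) →
    ∃ z ∈ C, ∀ i j, z * (g i * star (g j)) = g i * star (g j) * z

/-- FAITH: normal conditional expectations onto irreducible subalgebras are faithful. -/
def S_FAITH : Prop :=
  ∀ (H : Type) [NormedAddCommGroup H] [InnerProductSpace ℂ H] [CompleteSpace H]
    (N M : VonNeumannAlgebra H) (E : (H →L[ℂ] H) → (H →L[ℂ] H)), (∀ a ∈ N, a ∈ M) →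
    IrredIn N M → IsNCE N M E → ∀ x ∈ M, E (star x * x) = 0 → x = 0

/-- LSC: properties of the functionals `x ↦ ⟪ξ, E (star x * x) ξ⟫`. -/
def S_LSC : Prop :=
  ∀ (H : Type) [NormedAddCommGroup H] [InnerProductSpace ℂ H] [CompleteSpace H]
    (N M : VonNeumannAlgebra H) (E : (H →L[ℂ] H) → (H →L[ℂ] H)), (∀ a ∈ N, a ∈ M) →
    IsNCE N M E →
    (∀ x ∈ M, ‖E x‖ ≤ ‖x‖) ∧
    (∀ (U : Ultrafilter ℕ) (z : ℕ → (H →L[ℂ] H)) (w : H →L[ℂ] H) (R : ℝ), (∀ i, ‖z i‖ ≤ R) →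
      (∀ i, z i ∈ M) → WLim (U : Filter ℕ) z w → ∀ (ξ : H) (r : ℝ),
      (∀ i, (⟪ξ, E (star (z i) * z i) ξ⟫_ℂ).re ≤ r) → (⟪ξ, E (star w * w) ξ⟫_ℂ).re ≤ r)

/-- KSET: properties of the weakly closed convex hull of the conjugates. -/
def S_KSET : Prop :=
  ∀ (H : Type) [NormedAddCommGroup H] [InnerProductSpace ℂ H] [CompleteSpace H]
    (N M : VonNeumannAlgebra H), (∀ a ∈ N, a ∈ M) → ∀ x ∈ M,
    x ∈ KN N x ∧ (∀ z ∈ KN N x, z ∈ M ∧ ‖z‖ ≤ ‖x‖) ∧ Convex ℝ (KN N x) ∧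
    (∀ u ∈ unitary (H →L[ℂ] H), u ∈ N → ∀ z ∈ KN N x, u * z * star u ∈ KN N x) ∧
    (∀ (ι : Type) (U : Ultrafilter ι) (z : ι → (H →L[ℂ] H)) (w : H →L[ℂ] H),
      (∀ i, z i ∈ KN N x) → WLim (U : Filter ι) z w → w ∈ KN N x)

/-- FIN: the case where `N` has a faithful normal tracial state. -/
def S_FIN : Prop :=
  ∀ (H : Type) [NormedAddCommGroup H] [InnerProductSpace ℂ H] [CompleteSpace H]
    (N M : VonNeumannAlgebra H) (E : (H →L[ℂ] H) → (H →L[ℂ] H)) (t : (H →L[ℂ] H) → ℂ),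
    (∀ a ∈ N, a ∈ M) → IrredIn N M → IsNCE N M E → IsTrace N t →
    ∀ x ∈ M, ∃ c : ℂ, c • (1 : H →L[ℂ] H) ∈ KN N x

/-- INF: the case of infinite factors. -/
def S_INF : Prop :=
  ∀ (H : Type) [NormedAddCommGroup H] [InnerProductSpace ℂ H] [CompleteSpace H]
    [TopologicalSpace.SeparableSpace H]
    (N M : VonNeumannAlgebra H) (E : (H →L[ℂ] H) → (H →L[ℂ] H)),
    (∀ a ∈ N, a ∈ M) → Factor N → Infin N → IrredIn N M → IsNCE N M E →
    ∀ x ∈ M, ∃ c : ℂ, c • (1 : H →L[ℂ] H) ∈ KN N x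

end Pool.Agent.W988.WD
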