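import Mathlib
import Pool.Agent.W988.WD.Defs

/-!
Weak relative Dixmier property (MP_7e3bdd_an, second question): the finite case.
-/

set_option autoImplicit false
open scoped InnerProductSpace Topology
open Filter

namespace Pool.Agent.W988.WD

/-- COV: in a finite factor finitely many conjugates of a nonzero projection cover 1. -/
def S_COV : Prop :=
  ∀ (H : Type) [NormedAddCommGroup H] [InnerProductSpace ℂ H] [CompleteSpace H]
    (N : VonNeumannAlgebra H), Factor N → ¬ Infin N → ∀ p ∈ N, Prj p → p ≠ 0 →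
    ∃ (k : ℕ) (u : Fin k → (H →L[ℂ] H)), (∀ i, u i ∈ unitary (H →L[ℂ] H) ∧ u i ∈ N) ∧
      ∀ ξ : H, ‖ξ‖ ^ 2 ≤ ∑ i, (⟪ξ, (u i * p * star (u i)) ξ⟫_ℂ).re

/-- FINF: the case of finite factors (without a trace). -/
def S_FINF : Prop :=
  ∀ (H : Type) [NormedAddCommGroup H] [InnerProductSpace ℂ H] [CompleteSpace H]
    (N M : VonNeumannAlgebra H) (E : (H →L[ℂ] H) → (H →L[ℂ] H)),
    (∀ a ∈ N, a ∈ M) → Factor N → ¬ Infin N → IrredIn N M → IsNCE N M E →
    ∀ x ∈ M, ∃ c : ℂ, c • (1 : H →L[ℂ] H) ∈ KN N x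

end Pool.Agent.W988.WD
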