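import Mathlib
import Pool.Agent.W988.WD.Defs

/-!
The case of infinite factors (assembly).
-/

set_option autoImplicit false
open scoped InnerProductSpace Topology
open Filter

namespace Pool.Agent.W988.WD

variable {H : Type} [NormedAddCommGroup H] [InnerProductSpace ℂ H] [CompleteSpace H]

lemma smulm {M : VonNeumannAlgebra H} (c : ℂ) {x : H →L[ℂ] H} (hx : x ∈ M) : c • x ∈ M :=
  M.toStarSubalgebra.smul_mem hx c

lemma inner_star (u : H →L[ℂ] H) (x y : H) : ⟪star u x, y⟫_ℂ = ⟪x, u y⟫_ℂ := by
  rw [ContinuousLinearMap.star_eq_adjoint, ContinuousLinearMap.adjoint_inner_left]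

/-- the quadratic form of `E (star z * z)` -/
noncomputable def qf (E : (H →L[ℂ] H) → (H →L[ℂ] H)) (ξ : H) (z : H →L[ℂ] H) : ℝ :=
  (⟪ξ, E (star z * z) ξ⟫_ℂ).re

lemma sub_nce {N M : VonNeumannAlgebra H} {E : (H →L[ℂ] H) → (H →L[ℂ] H)} (hE : IsNCE N M E)
    {x y : H →L[ℂ] H} (hx : x ∈ M) (hy : y ∈ M) : E (x - y) = E x - E y := by
  have h1 : x - y = x + (-1 : ℂ) • y := by rw [neg_smul, one_smul, sub_eq_add_neg]
  have h2 : (-1 : ℂ) • y ∈ M := smulm _ hy
  rw [h1, hE.add x hx _ h2, hE.smul _ _ hy, neg_smul, one_smul, sub_eq_add_neg]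

lemma qf_nonneg {N M : VonNeumannAlgebra H} {E : (H →L[ℂ] H) → (H →L[ℂ] H)} (hE : IsNCE N M E)
    (ξ : H) {z : H →L[ℂ] H} (hz : z ∈ M) : 0 ≤ qf E ξ z := by
  have h1 : (star z * z).IsPositive := ContinuousLinearMap.isPositive_adjoint_comp_self z
  exact (hE.pos _ (mul_mem (star_mem hz) hz) h1).re_inner_nonneg_right ξ

/-- the parallelogram identity with weights -/
lemma qf_conv {N M : VonNeumannAlgebra H} {E : (H →L[ℂ] H) → (H →L[ℂ] H)} (hE : IsNCE N M E)
    (ξ : H) {z w : H →L[ℂ] H} (hz : z ∈ M) (hw : w ∈ M) {s t : ℝ} (hst : s + t = 1) :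
    qf E ξ (s • z + t • w) = s * qf E ξ z + t * qf E ξ w - s * t * qf E ξ (z - w) := by
  have e1 : star (s • z + t • w) * (s • z + t • w) =
      ((s : ℂ) • (star z * z) + (t : ℂ) • (star w * w)) -
        ((s * t : ℝ) : ℂ) • (star (z - w) * (z - w)) := by
    have ht : t = 1 - s := by linarith
    subst ht
    have hs : ∀ (a : ℝ) (x : H →L[ℂ] H), a • x = (a : ℂ) • x := fun a x => rfl
    simp only [hs, star_add, star_sub, star_smul, mul_add, add_mul, mul_sub, sub_mul,
      smul_mul_assoc, mul_smul_comm, RCLike.star_def, Complex.conj_ofReal, smul_smul, smul_add,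
      smul_sub]
    push_cast
    module
  have m1 : (s : ℂ) • (star z * z) ∈ M := smulm _ (mul_mem (star_mem hz) hz)
  have m2 : (t : ℂ) • (star w * w) ∈ M := smulm _ (mul_mem (star_mem hw) hw)
  have m3 : star (z - w) * (z - w) ∈ M := mul_mem (star_mem (sub_mem hz hw)) (sub_mem hz hw)
  unfold qf
  rw [e1, sub_nce hE (add_mem m1 m2) (smulm _ m3), hE.add _ m1 _ m2,
    hE.smul _ _ (mul_mem (star_mem hz) hz), hE.smul _ _ (mul_mem (star_mem hw) hw),
    hE.smul _ _ m3]
  simp only [add_apply, sub_apply,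
    smul_apply, inner_add_right, inner_sub_right, inner_smul_right,
    Complex.add_re, Complex.sub_re, Complex.re_ofReal_mul]

lemma qf_conj {N M : VonNeumannAlgebra H} {E : (H →L[ℂ] H) → (H →L[ℂ] H)} (hE : IsNCE N M E)
    (ξ : H) {z u : H →L[ℂ] H} (hz : z ∈ M) (hu : u ∈ unitary (H →L[ℂ] H)) (huN : u ∈ N) :
    qf E ξ (u * z * star u) = qf E (star u ξ) z := by
  have h1 : star (u * z * star u) * (u * z * star u) = u * (star z * z) * star u := by
    rw [star_mul, star_mul, star_star]
    calc u * (star z * star u) * (u * z * star u) = u * star z * (star u * u) * z * star u := by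
          noncomm_ring
      _ = _ := by rw [Unitary.star_mul_self_of_mem hu]; noncomm_ring
  unfold qf
  rw [h1, hE.bimod _ huN _ (star_mem huN) _ (mul_mem (star_mem hz) hz)]
  have h2 : (u * E (star z * z) * star u) ξ = u (E (star z * z) (star u ξ)) := rfl
  rw [h2, inner_star]

lemma norm_star_unitary {u : H →L[ℂ] H} (hu : u ∈ unitary (H →L[ℂ] H)) (ξ : H) :
    ‖star u ξ‖ = ‖ξ‖ := by
  have h1 : ⟪star u ξ, star u ξ⟫_ℂ = ⟪ξ, ξ⟫_ℂ := by
    rw [inner_star]
    have h2 : u (star u ξ) = (u * star u) ξ := rfl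
    rw [h2, Unitary.mul_star_self_of_mem hu]
    rfl
  rw [inner_self_eq_norm_sq_to_K, inner_self_eq_norm_sq_to_K] at h1
  have h3 : ‖star u ξ‖ ^ 2 = ‖ξ‖ ^ 2 := by exact_mod_cast h1
  exact (sq_eq_sq₀ (norm_nonneg _) (norm_nonneg _)).1 h3

/-- the von Neumann algebra of the elements of `N` that commute with the matrix units -/
noncomputable def PP (N : VonNeumannAlgebra H) (g : ℕ → (H →L[ℂ] H)) : VonNeumannAlgebra H where
  toStarSubalgebra := StarSubalgebra.centralizer ℂ
    ((N.commutant : Set (H →L[ℂ] H)) ∪ {T | ∃ i j, T = g i * star (g j)})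
  centralizer_centralizer' := by
    change Set.centralizer (Set.centralizer (Set.centralizer _)) = Set.centralizer _
    rw [Set.centralizer_centralizer_centralizer]

lemma mem_PP {N : VonNeumannAlgebra H} {g : ℕ → (H →L[ℂ] H)} {y : H →L[ℂ] H} :
    y ∈ PP N g ↔ y ∈ N ∧ ∀ i j, y * (g i * star (g j)) = g i * star (g j) * y := by
  have h0 : y ∈ PP N g ↔ y ∈ StarSubalgebra.centralizer ℂ
    ((N.commutant : Set (H →L[ℂ] H)) ∪ {T | ∃ i j, T = g i * star (g j)}) := Iff.rfl
  rw [h0, StarSubalgebra.mem_centralizer_iff]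
  constructor
  · intro h
    constructor
    · rw [← N.commutant_commutant, VonNeumannAlgebra.mem_commutant_iff]
      intro k hk
      exact (h k (Or.inl hk)).1
    · intro i j
      exact ((h _ (Or.inr ⟨i, j, rfl⟩)).1).symm
  · rintro ⟨h1, h2⟩ k (hk | ⟨i, j, rfl⟩)
    · have hk' : star k ∈ N.commutant := star_mem hk
      have hk2 : k ∈ N.commutant := hk
      rw [VonNeumannAlgebra.mem_commutant_iff] at hk' hk2
      exact ⟨(hk2 y h1).symm, (hk' y h1).symm⟩
    · refine ⟨(h2 i j).symm, ?_⟩
      rw [star_mul, star_star]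
      exact (h2 j i).symm

/-- the reflection that exchanges `1 - p` with a subprojection of `p` -/
lemma reflection {p v : H →L[ℂ] H} (hp : Prj p) (h1 : star v * v = 1 - p) (h2 : p * v = v) :
    ∃ u : H →L[ℂ] H, u = v + star v + (p - v * star v) ∧ star u = u ∧ u * u = 1 ∧
      ∀ ξ : H, ‖ξ‖ ^ 2 ≤ (⟪ξ, p ξ⟫_ℂ).re + (⟪u ξ, p (u ξ)⟫_ℂ).re := by
  obtain ⟨hps, hpp⟩ := hp
  have h3 : v * p = 0 := by
    have h4 : star (v * p) * (v * p) = 0 := by
      rw [star_mul, hps]
      calc p * star v * (v * p) = p * (star v * v) * p := by noncomm_ring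
        _ = p * p - p * p * p := by rw [h1]; noncomm_ring
        _ = 0 := by rw [hpp, hpp, sub_self]
    exact CStarRing.star_mul_self_eq_zero_iff _ |>.1 h4
  have h3' : p * star v = 0 := by
    have := congrArg star h3
    rwa [star_mul, hps, star_zero] at this
  have h2' : star v * p = star v := by
    have := congrArg star h2
    rwa [star_mul, hps] at this
  have h5 : v * v = 0 := by
    calc v * v = v * (p * v) := by rw [h2]
      _ = (v * p) * v := by noncomm_ring
      _ = 0 := by rw [h3, zero_mul]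
  have h5' : star v * star v = 0 := by
    have := congrArg star h5
    rwa [star_mul, star_zero] at this
  set f := v * star v with hf
  have hfs : star f = f := by rw [hf, star_mul, star_star]
  have hpf : p * f = f := by rw [hf, ← mul_assoc, h2]
  have hfp : f * p = f := by rw [hf, mul_assoc, h2']
  have hfv : f * v = v := by
    rw [hf, mul_assoc, h1, mul_sub, mul_one, h3, sub_zero]
  have hvf : v * f = 0 := by rw [hf, ← mul_assoc, h5, zero_mul]
  have hff : f * f = f := by
    calc f * f = (f * v) * star v := by rw [hf]; noncomm_ring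
      _ = f := by rw [hfv]
  have hsf : star v * f = star v := by
    have := congrArg star hfv
    rwa [star_mul, hfs] at this
  have hfs' : f * star v = 0 := by
    have := congrArg star hvf
    rwa [star_mul, hfs, star_zero] at this
  refine ⟨v + star v + (p - f), rfl, ?_, ?_, ?_⟩
  · rw [star_add, star_add, star_sub, star_star, hps, hfs, add_comm (star v) v]
  · calc (v + star v + (p - f)) * (v + star v + (p - f)) =
        v * v + v * star v + (v * p - v * f) + (star v * v + star v * star v +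
          (star v * p - star v * f)) + ((p * v - f * v) + (p * star v - f * star v) +
          (p * p - p * f - f * p + f * f)) := by noncomm_ring
      _ = 1 := by
        rw [h5, ← hf, h3, hvf, h1, h5', h2', hsf, h2, hfv, h3', hfs', hpp, hpf, hfp, hff]
        noncomm_ring
  · intro ξ
    set u := v + star v + (p - f) with hu
    have hus : star u = u := by
      rw [hu, star_add, star_add, star_sub, star_star, hps, hfs, add_comm (star v) v]
    have h6 : u * p * u = 1 - f := by
      calc (v + star v + (p - f)) * p * (v + star v + (p - f)) =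
          (v * p + star v * p + (p * p - f * p)) * (v + star v + (p - f)) := by noncomm_ring
        _ = (star v + (p - f)) * (v + star v + (p - f)) := by
          rw [h3, h2', hpp, hfp, zero_add]
        _ = star v * v + star v * star v + (star v * p - star v * f) + ((p * v - f * v) +
          (p * star v - f * star v) + (p * p - p * f - f * p + f * f)) := by noncomm_ring
        _ = 1 - f := by
          rw [h1, h5', h2', hsf, h2, hfv, h3', hfs', hpp, hpf, hfp, hff]
          noncomm_ring
    have h7 : ⟪u ξ, p (u ξ)⟫_ℂ = ⟪ξ, (1 - f) ξ⟫_ℂ := by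
      have h8 : ⟪star u ξ, p (u ξ)⟫_ℂ = ⟪ξ, u (p (u ξ))⟫_ℂ := inner_star u ξ _
      rw [hus] at h8
      rw [h8, ← h6]
      rfl
    have h9 : ⟪ξ, p ξ⟫_ℂ + ⟪ξ, (1 - f) ξ⟫_ℂ = ⟪ξ, ξ⟫_ℂ + ⟪(p - f) ξ, (p - f) ξ⟫_ℂ := by
      have h10 : ⟪star (p - f) ξ, (p - f) ξ⟫_ℂ = ⟪ξ, (p - f) ((p - f) ξ)⟫_ℂ := inner_star _ ξ _
      have h11 : star (p - f) = p - f := by rw [star_sub, hps, hfs]
      have h12 : (p - f) ((p - f) ξ) = (p - f) ξ := by
        have : (p - f) * (p - f) = p - f := by
          calc (p - f) * (p - f) = p * p - p * f - f * p + f * f := by noncomm_ring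
            _ = p - f := by rw [hpp, hpf, hfp, hff]; noncomm_ring
        exact congrArg (fun T : H →L[ℂ] H => T ξ) this
      rw [h11, h12] at h10
      rw [h10, ← inner_add_right, ← inner_add_right]
      congr 1
      change p ξ + (ξ - f ξ) = ξ + (p ξ - f ξ)
      abel
    have h13 := congrArg Complex.re h9
    rw [Complex.add_re, Complex.add_re] at h13
    rw [h7, h13]
    have h14 : 0 ≤ (⟪(p - f) ξ, (p - f) ξ⟫_ℂ).re := inner_self_nonneg (𝕜 := ℂ)
    have h15 : (⟪ξ, ξ⟫_ℂ).re = ‖ξ‖ ^ 2 := by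
      rw [inner_self_eq_norm_sq_to_K]
      norm_cast
    linarith

end Pool.Agent.W988.WD
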