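import Mathlib
import Pool.Agent.W988.WD.Inf

/-!
The case of infinite factors (assembly, second part).
-/

set_option autoImplicit false
open scoped InnerProductSpace Topology
open Filter

namespace Pool.Agent.W988.WD

variable {H : Type} [NormedAddCommGroup H] [InnerProductSpace ℂ H] [CompleteSpace H]

/-- the elements of the hull with small quadratic form -/
def K1 (N : VonNeumannAlgebra H) (E : (H →L[ℂ] H) → (H →L[ℂ] H)) (x : H →L[ℂ] H) (c : ℝ) :
    Set (H →L[ℂ] H) :=
  {z | z ∈ KN N x ∧ ∀ ξ, qf E ξ z ≤ c * ‖ξ‖ ^ 2}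

/-- there is a least constant, and it is attained -/
lemma exists_min (hCPT : S_CPT) (hKSET : S_KSET) (hLSC : S_LSC)
    {N M : VonNeumannAlgebra H} {E : (H →L[ℂ] H) → (H →L[ℂ] H)} (hNM : ∀ a ∈ N, a ∈ M)
    (hE : IsNCE N M E) {x : H →L[ℂ] H} (hx : x ∈ M) :
    ∃ c : ℝ, (K1 N E x c).Nonempty ∧ ∀ r : ℝ, 0 ≤ r → (K1 N E x r).Nonempty → c ≤ r := by
  obtain ⟨hxK, hKM, -, -, hcl⟩ := hKSET H N M hNM x hx
  obtain ⟨hcon, hlsc⟩ := hLSC H N M E hNM hE
  set S : Set ℝ := {r | 0 ≤ r ∧ (K1 N E x r).Nonempty} with hS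
  have hbdd : BddBelow S := ⟨0, fun r hr => hr.1⟩
  have hne : S.Nonempty := by
    refine ⟨‖star x * x‖, norm_nonneg _, x, hxK, fun ξ => ?_⟩
    unfold qf
    have h1 : (⟪ξ, E (star x * x) ξ⟫_ℂ).re ≤ ‖ξ‖ * ‖E (star x * x) ξ‖ :=
      (Complex.re_le_norm _).trans (norm_inner_le_norm _ _)
    have h2 : ‖E (star x * x) ξ‖ ≤ ‖star x * x‖ * ‖ξ‖ :=
      (ContinuousLinearMap.le_opNorm _ _).trans
        (mul_le_mul_of_nonneg_right (hcon _ (mul_mem (star_mem hx) hx)) (norm_nonneg _))
    have h3 := mul_le_mul_of_nonneg_left h2 (norm_nonneg ξ)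
    nlinarith
  set c := sInf S with hc
  have hmin : ∀ r : ℝ, 0 ≤ r → (K1 N E x r).Nonempty → c ≤ r := fun r h1 h2 => csInf_le hbdd ⟨h1, h2⟩
  refine ⟨c, ?_, hmin⟩
  have hex : ∀ n : ℕ, ∃ z : H →L[ℂ] H, z ∈ K1 N E x (c + 1 / ((n : ℝ) + 1)) := by
    intro n
    obtain ⟨r, hr, hr'⟩ := exists_lt_of_csInf_lt hne (lt_add_of_pos_right c
      (by positivity : (0 : ℝ) < 1 / ((n : ℝ) + 1)))
    obtain ⟨z, hz, hz'⟩ := hr.2
    exact ⟨z, hz, fun ξ => (hz' ξ).trans (mul_le_mul_of_nonneg_right hr'.le (by positivity))⟩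
  choose z hz using hex
  have hzM : ∀ n, z n ∈ M := fun n => (hKM _ (hz n).1).1
  have hzR : ∀ n, ‖z n‖ ≤ ‖x‖ := fun n => (hKM _ (hz n).1).2
  obtain ⟨w, -, hw⟩ := (hCPT H ℕ (hyperfilter ℕ) z).1 ‖x‖ hzR
  refine ⟨w, hcl ℕ _ z w (fun n => (hz n).1) hw, fun ξ => ?_⟩
  have key : ∀ m : ℕ, qf E ξ w ≤ (c + 1 / ((m : ℝ) + 1)) * ‖ξ‖ ^ 2 := by
    intro m
    have h1 : WLim ((hyperfilter ℕ : Ultrafilter ℕ) : Filter ℕ) (fun n => z (max n m)) w := by
      intro a b
      refine (hw a b).congr' ?_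
      have h2 : ∀ᶠ n in ((hyperfilter ℕ : Ultrafilter ℕ) : Filter ℕ), m ≤ n := by
        have h3 : ∀ᶠ n in (atTop : Filter ℕ), m ≤ n := eventually_ge_atTop m
        exact Nat.hyperfilter_le_atTop h3
      filter_upwards [h2] with n hn
      rw [max_eq_left hn]
    refine hlsc (hyperfilter ℕ) (fun n => z (max n m)) w ‖x‖ (fun n => hzR _) (fun n => hzM _) h1 ξ
      _ (fun n => ?_)
    refine ((hz (max n m)).2 ξ).trans (mul_le_mul_of_nonneg_right ?_ (by positivity))
    have h4 : 1 / (((max n m : ℕ) : ℝ) + 1) ≤ 1 / ((m : ℝ) + 1) := by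
      apply one_div_le_one_div_of_le (by positivity)
      have : (m : ℝ) ≤ ((max n m : ℕ) : ℝ) := by exact_mod_cast le_max_right n m
      linarith
    linarith
  have hlim : Tendsto (fun m : ℕ => (c + 1 / ((m : ℝ) + 1)) * ‖ξ‖ ^ 2) atTop
      (𝓝 ((c + 0) * ‖ξ‖ ^ 2)) :=
    (tendsto_const_nhds.add tendsto_one_div_add_atTop_nhds_zero_nat).mul_const _
  rw [add_zero] at hlim
  exact ge_of_tendsto' hlim key

lemma K1_convex (hKSET : S_KSET) {N M : VonNeumannAlgebra H} {E : (H →L[ℂ] H) → (H →L[ℂ] H)}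
    (hNM : ∀ a ∈ N, a ∈ M) (hE : IsNCE N M E) {x : H →L[ℂ] H} (hx : x ∈ M) (c : ℝ) :
    Convex ℝ (K1 N E x c) := by
  obtain ⟨-, hKM, hconv, -, -⟩ := hKSET H N M hNM x hx
  intro z hz w hw s t hs ht hst
  refine ⟨hconv hz.1 hw.1 hs ht hst, fun ξ => ?_⟩
  have hzM := (hKM z hz.1).1
  have hwM := (hKM w hw.1).1
  rw [qf_conv hE ξ hzM hwM hst]
  have h1 := qf_nonneg hE ξ (sub_mem hzM hwM)
  have h2 := hz.2 ξ
  have h3 := hw.2 ξ
  have h4 := mul_nonneg (mul_nonneg hs ht) h1
  have h5 := mul_le_mul_of_nonneg_left h2 hs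
  have h6 := mul_le_mul_of_nonneg_left h3 ht
  have h7 : s * (c * ‖ξ‖ ^ 2) + t * (c * ‖ξ‖ ^ 2) = c * ‖ξ‖ ^ 2 := by
    rw [← add_mul, hst, one_mul]
  linarith

lemma K1_conj (hKSET : S_KSET) {N M : VonNeumannAlgebra H} {E : (H →L[ℂ] H) → (H →L[ℂ] H)}
    (hNM : ∀ a ∈ N, a ∈ M) (hE : IsNCE N M E) {x : H →L[ℂ] H} (hx : x ∈ M) (c : ℝ)
    {u z : H →L[ℂ] H} (hu : u ∈ unitary (H →L[ℂ] H)) (huN : u ∈ N) (hz : z ∈ K1 N E x c) :
    u * z * star u ∈ K1 N E x c := by
  obtain ⟨-, hKM, -, hinv, -⟩ := hKSET H N M hNM x hx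
  refine ⟨hinv u hu huN z hz.1, fun ξ => ?_⟩
  rw [qf_conj hE ξ (hKM z hz.1).1 hu huN, ← norm_star_unitary hu ξ]
  exact hz.2 _

/-- the general form: `N` an infinite factor, `E` faithful -/
theorem gen_inf (hCPT : S_CPT) (hKSET : S_KSET) (hLSC : S_LSC) (hABS : S_ABS)
    (hMU : S_MU) (hSPEC : S_SPEC) (hGEN : S_GEN) (hAVG : S_AVG)
    (H : Type) [NormedAddCommGroup H] [InnerProductSpace ℂ H] [CompleteSpace H]
    [TopologicalSpace.SeparableSpace H]
    (N M : VonNeumannAlgebra H) (E : (H →L[ℂ] H) → (H →L[ℂ] H)) (hNM : ∀ a ∈ N, a ∈ M)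
    (hF : Factor N) (hInf : Infin N) (hE : IsNCE N M E)
    (hfaith : ∀ x ∈ M, E (star x * x) = 0 → x = 0) (x : H →L[ℂ] H) (hx : x ∈ M) :
    ∃ z ∈ KN N x, z ∈ M ∧ ∀ y ∈ N, z * y = y * z := by
  obtain ⟨-, hKM, -, -, hcl⟩ := hKSET H N M hNM x hx
  obtain ⟨-, hlsc⟩ := hLSC H N M E hNM hE
  obtain ⟨e, g, hg⟩ := hMU H N hF hInf
  obtain ⟨c, hne, hmin⟩ := exists_min hCPT hKSET hLSC hNM hE hx
  have hconv := K1_convex hKSET hNM hE hx c
  have hconj : ∀ u ∈ unitary (H →L[ℂ] H), u ∈ N → ∀ z ∈ K1 N E x c, u * z * star u ∈ K1 N E x c :=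
    fun u hu huN z hz => K1_conj hKSET hNM hE hx c hu huN hz
  obtain ⟨z, hzK, hzg⟩ := hAVG H N e g hg (K1 N E x c) hne hconv
    ⟨‖x‖, fun z hz => (hKM z hz.1).2⟩ hconj (by
      intro U z w hz hw
      refine ⟨hcl ℕ U z w (fun i => (hz i).1) hw, fun ξ => ?_⟩
      exact hlsc U z w ‖x‖ (fun i => (hKM _ (hz i).1).2) (fun i => (hKM _ (hz i).1).1) hw ξ _
        fun i => (hz i).2 ξ)
  -- the form is constant on the invariant elements
  have hstar : ∀ i j, star (g i * star (g j)) = g j * star (g i) := by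
    intro i j
    rw [star_mul, star_star]
  have hgN : ∀ i j, g i * star (g j) ∈ N := fun i j => mul_mem (hg.mem i) (star_mem (hg.mem j))
  have hconst : ∀ z ∈ K1 N E x c, (∀ i j, z * (g i * star (g j)) = g i * star (g j) * z) →
      ∀ ξ, qf E ξ z = c * ‖ξ‖ ^ 2 := by
    intro z hz hzg ξ0
    have hzM : z ∈ M := (hKM z hz.1).1
    have hzz : star z * z ∈ M := mul_mem (star_mem hzM) hzM
    set b : H →L[ℂ] H := (c : ℂ) • (1 : H →L[ℂ] H) - E (star z * z) with hb
    have hbN : b ∈ N := sub_mem (smulm _ (one_mem N)) (hE.mem _ hzz)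
    have hbq : ∀ ξ, (⟪ξ, b ξ⟫_ℂ).re = c * ‖ξ‖ ^ 2 - qf E ξ z := by
      intro ξ
      have h1 : b ξ = (c : ℂ) • ξ - E (star z * z) ξ := rfl
      rw [h1, inner_sub_right, inner_smul_right, Complex.sub_re, Complex.re_ofReal_mul]
      unfold qf
      rw [inner_self_eq_norm_sq_to_K]
      norm_cast
    have hEpos : (E (star z * z)).IsPositive :=
      hE.pos _ hzz (ContinuousLinearMap.isPositive_adjoint_comp_self z)
    have hbsa : IsSelfAdjoint b := by
      refine IsSelfAdjoint.sub ?_ hEpos.isSelfAdjoint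
      rw [isSelfAdjoint_iff, star_smul, star_one, RCLike.star_def, Complex.conj_ofReal]
    have hbpos : b.IsPositive := by
      rw [ContinuousLinearMap.isPositive_def']
      refine ⟨hbsa, fun ξ => ?_⟩
      rw [ContinuousLinearMap.reApplyInnerSelf_apply, ← inner_conj_symm]
      change 0 ≤ (starRingEnd ℂ (⟪ξ, b ξ⟫_ℂ)).re
      rw [Complex.conj_re, hbq]
      linarith [hz.2 ξ]
    have hzgs : ∀ i j, star z * (g i * star (g j)) = g i * star (g j) * star z := by
      intro i j
      have := congrArg star (hzg j i)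
      rw [star_mul z, star_mul _ z, hstar] at this
      exact this.symm
    have hbg : ∀ i j, b * (g i * star (g j)) = g i * star (g j) * b := by
      intro i j
      have h1 : E (star z * z * (g i * star (g j))) = E (star z * z) * (g i * star (g j)) := by
        have := hE.bimod 1 (one_mem N) _ (hgN i j) _ hzz
        rwa [one_mul, one_mul] at this
      have h2 : E (g i * star (g j) * (star z * z)) = g i * star (g j) * E (star z * z) := by
        have := hE.bimod _ (hgN i j) 1 (one_mem N) _ hzz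
        rwa [mul_one, mul_one] at this
      have h3 : star z * z * (g i * star (g j)) = g i * star (g j) * (star z * z) := by
        rw [mul_assoc, hzg, ← mul_assoc, hzgs, mul_assoc]
      rw [hb, sub_mul, mul_sub, ← h1, ← h2, h3, smul_mul_assoc, mul_smul_comm, one_mul, mul_one]
    by_contra hneq
    have hb0 : b ≠ 0 := by
      intro h0
      apply hneq
      have := hbq ξ0
      rw [h0] at this
      simp only [zero_apply, inner_zero_right, Complex.zero_re] at this
      linarith
    obtain ⟨p, hpP, hp, hp0, δ, hδ, hδb⟩ := hSPEC H (PP N g) b (mem_PP.2 ⟨hbN, hbg⟩) hbpos hb0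
    obtain ⟨hpN, hpg⟩ := mem_PP.1 hpP
    -- infinitely many copies
    have hge : ∀ n, g n * e = g n := by
      intro n
      have h1 : star (g n * e - g n) * (g n * e - g n) = 0 := by
        rw [star_sub, star_mul, hg.prj.1]
        calc (e * star (g n) - star (g n)) * (g n * e - g n) =
            e * (star (g n) * g n) * e - e * (star (g n) * g n) - (star (g n) * g n) * e +
              star (g n) * g n := by noncomm_ring
          _ = 0 := by
            rw [hg.ini, hg.prj.2, hg.prj.2]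
            noncomm_ring
      exact sub_eq_zero.1 ((CStarRing.star_mul_self_eq_zero_iff _).1 h1)
    have heg : ∀ n, e * star (g n) = star (g n) := by
      intro n
      have := congrArg star (hge n)
      rwa [star_mul, hg.prj.1] at this
    have hgg : ∀ n, g n * star (g n) * g n = g n := by
      intro n
      rw [mul_assoc, hg.ini, hge]
    have hsame : ∀ n, star (g n) * p * g n = star (g 0) * p * g 0 := by
      intro n
      calc star (g n) * p * g n = star (g n) * p * (g n * (star (g 0) * g 0)) := by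
            rw [hg.ini, hge]
        _ = star (g n) * (p * (g n * star (g 0))) * g 0 := by noncomm_ring
        _ = (star (g n) * g n) * star (g 0) * p * g 0 := by rw [hpg]; noncomm_ring
        _ = star (g 0) * p * g 0 := by rw [hg.ini, heg]
    obtain ⟨v, hvN, hv1, hv2⟩ := hABS H N hF p hpN (1 - p) (sub_mem (one_mem N) hpN)
      (star (g 0) * p * g 0) (mul_mem (mul_mem (star_mem (hg.mem 0)) hpN) (hg.mem 0)) hp
      ⟨by rw [star_sub, star_one, hp.1], by
        calc (1 - p) * (1 - p) = 1 - p - p + p * p := by noncomm_ring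
          _ = 1 - p := by rw [hp.2]; noncomm_ring⟩
      ⟨by rw [star_mul, star_mul, star_star, hp.1, mul_assoc], by
        calc star (g 0) * p * g 0 * (star (g 0) * p * g 0) =
            star (g 0) * p * ((g 0 * star (g 0)) * p) * g 0 := by noncomm_ring
          _ = star (g 0) * (p * p) * (g 0 * star (g 0) * g 0) := by
            rw [← hpg]; noncomm_ring
          _ = star (g 0) * p * g 0 := by rw [hp.2, hgg]⟩
      (by
        intro h0
        apply hp0
        have h1 : ∀ n, p * g n = 0 := by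
          intro n
          have h2 : star (p * g n) * (p * g n) = 0 := by
            rw [star_mul, hp.1]
            calc star (g n) * p * (p * g n) = star (g n) * (p * p) * g n := by noncomm_ring
              _ = 0 := by rw [hp.2, hsame, h0]
          exact (CStarRing.star_mul_self_eq_zero_iff _).1 h2
        ext ξ
        refine hg.tot _ fun n => ?_
        have h3 := congrArg star (h1 n)
        rw [star_mul, hp.1, star_zero] at h3
        exact congrArg (fun T : H →L[ℂ] H => T ξ) h3)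
      (fun n => p * g n) (fun n => mul_mem hpN (hg.mem n))
      (fun n => by
        rw [star_mul, hp.1]
        calc star (g n) * p * (p * g n) = star (g n) * (p * p) * g n := by noncomm_ring
          _ = star (g 0) * p * g 0 := by rw [hp.2, hsame])
      (fun m n hmn => by
        rw [star_mul, hp.1]
        calc star (g m) * p * (p * g n) = star (g m) * (p * p) * (g n * star (g n) * g n) := by
              rw [hgg]; noncomm_ring
          _ = star (g m) * (p * (g n * star (g n))) * g n := by rw [hp.2]; noncomm_ring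
          _ = (star (g m) * g n) * (star (g n) * p * g n) := by rw [hpg]; noncomm_ring
          _ = 0 := by rw [hg.ort m n hmn, zero_mul])
      (fun n => by rw [← mul_assoc, hp.2])
    obtain ⟨u, hu, hus, huu, hup⟩ := reflection hp hv1 hv2
    have huN : u ∈ N := by
      rw [hu]
      exact add_mem (add_mem hvN (star_mem hvN)) (sub_mem hpN (mul_mem hvN (star_mem hvN)))
    have huU : u ∈ unitary (H →L[ℂ] H) := by
      rw [Unitary.mem_iff, hus]
      exact ⟨huu, huu⟩
    have hz2 : u * z * star u ∈ K1 N E x c := hconj u huU huN z hz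
    set y : H →L[ℂ] H := (1 / 2 : ℝ) • z + (1 / 2 : ℝ) • (u * z * star u) with hy
    have hyK : y ∈ K1 N E x c := hconv hz hz2 (by norm_num) (by norm_num) (by norm_num)
    have hyq : ∀ ξ, qf E ξ y ≤ (c - δ / 2) * ‖ξ‖ ^ 2 := by
      intro ξ
      have h8 : star u ξ = u ξ := by rw [hus]
      rw [hy, qf_conv hE ξ hzM (hKM _ hz2.1).1 (by norm_num), qf_conj hE ξ hzM huU huN, h8]
      have h1 := qf_nonneg hE ξ (sub_mem hzM (hKM _ hz2.1).1)
      have h2 := hδb ξ
      have h3 := hδb (u ξ)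
      rw [hbq] at h2 h3
      have h4 := hup ξ
      have h5 : ‖u ξ‖ = ‖ξ‖ := by
        have := norm_star_unitary huU ξ
        rwa [hus] at this
      rw [h5] at h3
      have h6 := mul_le_mul_of_nonneg_left h4 hδ.le
      rw [mul_add] at h6
      linarith
    obtain ⟨ξ, hξ⟩ : ∃ ξ : H, p ξ ≠ 0 := by
      by_contra hcon
      push Not at hcon
      exact hp0 (ContinuousLinearMap.ext hcon)
    have hξ0 : 0 < ‖ξ‖ := by
      rw [norm_pos_iff]
      intro h0
      rw [h0, map_zero] at hξ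
      exact hξ rfl
    have h1 := (qf_nonneg hE ξ (hKM _ hyK.1).1).trans (hyq ξ)
    have h2 : 0 ≤ c - δ / 2 := by
      by_contra hcon
      push Not at hcon
      have := mul_neg_of_neg_of_pos hcon (pow_pos hξ0 2)
      linarith
    have h3 := hmin _ h2 ⟨y, hyK.1, hyq⟩
    linarith
  -- uniqueness
  have huniq : ∀ w ∈ K1 N E x c, (∀ i j, w * (g i * star (g j)) = g i * star (g j) * w) →
      w = z := by
    intro w hw hwg
    have hwM := (hKM w hw.1).1
    have hzM := (hKM z hzK.1).1
    have hm : (1 / 2 : ℝ) • w + (1 / 2 : ℝ) • z ∈ K1 N E x c :=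
      hconv hw hzK (by norm_num) (by norm_num) (by norm_num)
    have hmg : ∀ i j, ((1 / 2 : ℝ) • w + (1 / 2 : ℝ) • z) * (g i * star (g j)) =
        g i * star (g j) * ((1 / 2 : ℝ) • w + (1 / 2 : ℝ) • z) := by
      intro i j
      rw [add_mul, mul_add, smul_mul_assoc, smul_mul_assoc, mul_smul_comm, mul_smul_comm, hwg, hzg]
    have h1 : ∀ ξ, qf E ξ (w - z) = 0 := by
      intro ξ
      have h2 := hconst _ hm hmg ξ
      rw [qf_conv hE ξ hwM hzM (by norm_num), hconst w hw hwg ξ, hconst z hzK hzg ξ] at h2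
      linarith
    have hdM : w - z ∈ M := sub_mem hwM hzM
    have hpos : (E (star (w - z) * (w - z))).IsPositive :=
      hE.pos _ (mul_mem (star_mem hdM) hdM) (ContinuousLinearMap.isPositive_adjoint_comp_self _)
    have h3 : E (star (w - z) * (w - z)) = 0 := by
      have h4 : ∀ ξ, ⟪E (star (w - z) * (w - z)) ξ, ξ⟫_ℂ = 0 := by
        intro ξ
        have h5 := hpos.inner_nonneg_left ξ
        have h6 : (⟪E (star (w - z) * (w - z)) ξ, ξ⟫_ℂ).re = 0 := by
          rw [← inner_conj_symm, Complex.conj_re]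
          exact h1 ξ
        rw [Complex.le_def] at h5
        exact Complex.ext h6 h5.2.symm
      have h7 := (inner_map_self_eq_zero (E (star (w - z) * (w - z)) : H →ₗ[ℂ] H)).1 h4
      exact ContinuousLinearMap.ext fun ξ => congrArg (fun T : H →ₗ[ℂ] H => T ξ) h7
    exact sub_eq_zero.1 (hfaith _ hdM h3)
  have hcomm : ∀ u ∈ unitary (H →L[ℂ] H), u ∈ N →
      (∀ i j, u * (g i * star (g j)) = g i * star (g j) * u) → z * u = u * z := by
    intro u hu huN hug
    have hsug : ∀ i j, star u * (g i * star (g j)) = g i * star (g j) * star u := by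
      intro i j
      have := congrArg star (hug j i)
      rw [star_mul u, star_mul _ u, hstar] at this
      exact this.symm
    have h1 := huniq (u * z * star u) (hconj u hu huN z hzK) (by
      intro i j
      calc u * z * star u * (g i * star (g j)) = u * z * (star u * (g i * star (g j))) := by
            noncomm_ring
        _ = u * (z * (g i * star (g j))) * star u := by rw [hsug]; noncomm_ring
        _ = (u * (g i * star (g j))) * z * star u := by rw [hzg]; noncomm_ring
        _ = g i * star (g j) * (u * z * star u) := by rw [hug]; noncomm_ring)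
    calc z * u = u * z * star u * u := by rw [h1]
      _ = u * z := by rw [mul_assoc, Unitary.star_mul_self_of_mem hu, mul_one]
  exact ⟨z, hzK.1, (hKM z hzK.1).1, hGEN H N e g hg z hzg hcomm⟩

end Pool.Agent.W988.WD
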