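import Mathlib
import Pool.Agent.W988.WD.Defs2
import Pool.Agent.W988.WD.InfA
import Pool.Agent.W101.WD.GEN

/-!
The case of finite factors (assembly).
-/

set_option autoImplicit false
open scoped InnerProductSpace Topology
open Filter

namespace Pool.Agent.W988.WD

variable {H : Type} [NormedAddCommGroup H] [InnerProductSpace ℂ H] [CompleteSpace H]

lemma qf_convexOn {N M : VonNeumannAlgebra H} {E : (H →L[ℂ] H) → (H →L[ℂ] H)}
    (hE : IsNCE N M E) (ξ : H) : ConvexOn ℝ (M : Set (H →L[ℂ] H)) (qf E ξ) := by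
  refine ⟨?_, ?_⟩
  · intro a ha b hb s t _ _ _
    have h1 : (s : ℂ) • a ∈ M := smulm _ ha
    have h2 : (t : ℂ) • b ∈ M := smulm _ hb
    exact add_mem h1 h2
  · intro a ha b hb s t hs ht hst
    rw [qf_conv hE ξ ha hb hst]
    have h1 := qf_nonneg hE ξ (sub_mem (S := VonNeumannAlgebra H) (H := M) ha hb)
    have h2 := mul_nonneg (mul_nonneg hs ht) h1
    simp only [smul_eq_mul]
    linarith

/-- the general form: `N` a finite factor, `E` faithful -/
theorem gen_fin (hCPT : S_CPT) (hKSET : S_KSET) (hLSC : S_LSC) (hCOV : S_COV)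
    (hSPEC : S_SPEC)
    (H : Type) [NormedAddCommGroup H] [InnerProductSpace ℂ H] [CompleteSpace H]
    (N M : VonNeumannAlgebra H) (E : (H →L[ℂ] H) → (H →L[ℂ] H)) (hNM : ∀ a ∈ N, a ∈ M)
    (hF : Factor N) (hFin : ¬ Infin N) (hE : IsNCE N M E)
    (hfaith : ∀ x ∈ M, E (star x * x) = 0 → x = 0) (x : H →L[ℂ] H) (hx : x ∈ M) :
    ∃ z ∈ KN N x, z ∈ M ∧ ∀ y ∈ N, z * y = y * z := by
  obtain ⟨-, hKM, -, -, hcl⟩ := hKSET H N M hNM x hx
  obtain ⟨c, ⟨z, hzK⟩, hmin⟩ := exists_min hCPT hKSET hLSC hNM hE hx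
  have hconv := K1_convex hKSET hNM hE hx c
  have hconj : ∀ u ∈ unitary (H →L[ℂ] H), u ∈ N → ∀ z ∈ K1 N E x c, u * z * star u ∈ K1 N E x c :=
    fun u hu huN z hz => K1_conj hKSET hNM hE hx c hu huN hz
  have hconst : ∀ z ∈ K1 N E x c, ∀ ξ, qf E ξ z = c * ‖ξ‖ ^ 2 := by
    intro z hz ξ0
    have hzM : z ∈ M := (hKM z hz.1).1
    have hzz : star z * z ∈ M := mul_mem (star_mem hzM) hzM
    set b : H →L[ℂ] H := (c : ℂ) • (1 : H →L[ℂ] H) - E (star z * z) with hb
    have hbN : b ∈ N := sub_mem (smulm _ (one_mem N)) (hE.mem _ hzz)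
    have hbq : ∀ ξ, (⟪ξ, b ξ⟫_ℂ).re = c * ‖ξ‖ ^ 2 - qf E ξ z := by
      intro ξ
      have h1 : b ξ = (c : ℂ) • ξ - E (star z * z) ξ := rfl
      rw [h1, inner_sub_right, inner_smul_right, Complex.sub_re, Complex.re_ofReal_mul]
      unfold qf
      rw [inner_self_eq_norm_sq_to_K]
      norm_cast
    have hEpos : (E (star z * z)).IsPositive :=
      hE.pos _ hzz (ContinuousLinearMap.isPositive_adjoint_comp_self z)
    have hbsa : IsSelfAdjoint b := by
      refine IsSelfAdjoint.sub ?_ hEpos.isSelfAdjoint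
      rw [isSelfAdjoint_iff, star_smul, star_one, RCLike.star_def, Complex.conj_ofReal]
    have hbpos : b.IsPositive := by
      rw [ContinuousLinearMap.isPositive_def']
      refine ⟨hbsa, fun ξ => ?_⟩
      rw [ContinuousLinearMap.reApplyInnerSelf_apply, ← inner_conj_symm]
      change 0 ≤ (starRingEnd ℂ (⟪ξ, b ξ⟫_ℂ)).re
      rw [Complex.conj_re, hbq]
      linarith [hz.2 ξ]
    by_contra hneq
    have hb0 : b ≠ 0 := by
      intro h0
      apply hneq
      have := hbq ξ0
      rw [h0] at this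
      simp only [zero_apply, inner_zero_right, Complex.zero_re] at this
      linarith
    obtain ⟨p, hpN, hp, hp0, δ, hδ, hδb⟩ := hSPEC H N b hbN hbpos hb0
    obtain ⟨k, u, hu, hcov⟩ := hCOV H N hF hFin p hpN hp hp0
    obtain ⟨ξ, hξ⟩ : ∃ ξ : H, p ξ ≠ 0 := by
      by_contra hcon
      push Not at hcon
      exact hp0 (ContinuousLinearMap.ext hcon)
    have hξ0 : 0 < ‖ξ‖ := by
      rw [norm_pos_iff]
      intro h0
      rw [h0, map_zero] at hξ
      exact hξ rfl
    have hk : 0 < k := by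
      rcases Nat.eq_zero_or_pos k with h0 | h0
      · subst h0
        have h1 := hcov ξ
        rw [Finset.univ_eq_empty, Finset.sum_empty] at h1
        have := pow_pos hξ0 2
        linarith
      · exact h0
    have hk' : (0 : ℝ) < k := by exact_mod_cast hk
    set y : H →L[ℂ] H := ∑ i : Fin k, (1 / k : ℝ) • (u i * z * star (u i)) with hy
    have hsum1 : ∑ _i : Fin k, (1 / k : ℝ) = 1 := by
      rw [Finset.sum_const, Finset.card_univ, Fintype.card_fin, nsmul_eq_mul]
      field_simp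
    have hyK : y ∈ K1 N E x c := hconv.sum_mem (fun i _ => by positivity) hsum1
      fun i _ => hconj (u i) (hu i).1 (hu i).2 z hz
    have hyq : ∀ ξ, qf E ξ y ≤ (c - δ / k) * ‖ξ‖ ^ 2 := by
      intro ξ
      have h1 := (qf_convexOn hE ξ).map_sum_le (t := Finset.univ) (w := fun _ : Fin k => (1 / k : ℝ))
        (p := fun i => u i * z * star (u i)) (fun i _ => by positivity) hsum1
        fun i _ => (hKM _ (hconj (u i) (hu i).1 (hu i).2 z hz).1).1
      refine h1.trans ?_
      have h2 : ∀ i : Fin k, (1 / k : ℝ) • qf E ξ (u i * z * star (u i)) ≤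
          (1 / k : ℝ) * (c * ‖ξ‖ ^ 2) - (δ / k) * (⟪ξ, (u i * p * star (u i)) ξ⟫_ℂ).re := by
        intro i
        rw [qf_conj hE ξ hzM (hu i).1 (hu i).2]
        have h3 := hδb (star (u i) ξ)
        rw [hbq, norm_star_unitary (hu i).1, inner_star] at h3
        have h4 : (u i * p * star (u i)) ξ = u i (p (star (u i) ξ)) := rfl
        rw [h4, smul_eq_mul]
        have h5 := mul_le_mul_of_nonneg_left h3 (by positivity : (0 : ℝ) ≤ 1 / k)
        have h6 : (1 / k : ℝ) * (δ * (⟪ξ, u i (p (star (u i) ξ))⟫_ℂ).re) =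
          δ / k * (⟪ξ, u i (p (star (u i) ξ))⟫_ℂ).re := by ring
        rw [h6, mul_sub] at h5
        linarith
      refine (Finset.sum_le_sum fun i _ => h2 i).trans ?_
      rw [Finset.sum_sub_distrib, ← Finset.sum_mul, hsum1, ← Finset.mul_sum]
      have h7 := mul_le_mul_of_nonneg_left (hcov ξ) (by positivity : (0 : ℝ) ≤ δ / k)
      linarith
    have h1 := (qf_nonneg hE ξ (hKM _ hyK.1).1).trans (hyq ξ)
    have h2 : 0 ≤ c - δ / k := by
      by_contra hcon
      push Not at hcon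
      have := mul_neg_of_neg_of_pos hcon (pow_pos hξ0 2)
      linarith
    have h3 := hmin _ h2 ⟨y, hyK.1, hyq⟩
    have h4 : 0 < δ / k := by positivity
    linarith
  have huniq : ∀ w ∈ K1 N E x c, w = z := by
    intro w hw
    have hwM := (hKM w hw.1).1
    have hzM := (hKM z hzK.1).1
    have hm : (1 / 2 : ℝ) • w + (1 / 2 : ℝ) • z ∈ K1 N E x c :=
      hconv hw hzK (by norm_num) (by norm_num) (by norm_num)
    have h1 : ∀ ξ, qf E ξ (w - z) = 0 := by
      intro ξ
      have h2 := hconst _ hm ξ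
      rw [qf_conv hE ξ hwM hzM (by norm_num), hconst w hw ξ, hconst z hzK ξ] at h2
      linarith
    have hdM : w - z ∈ M := sub_mem hwM hzM
    have hpos : (E (star (w - z) * (w - z))).IsPositive :=
      hE.pos _ (mul_mem (star_mem hdM) hdM) (ContinuousLinearMap.isPositive_adjoint_comp_self _)
    have h3 : E (star (w - z) * (w - z)) = 0 := by
      have h4 : ∀ ξ, ⟪E (star (w - z) * (w - z)) ξ, ξ⟫_ℂ = 0 := by
        intro ξ
        have h5 := hpos.inner_nonneg_left ξ
        have h6 : (⟪E (star (w - z) * (w - z)) ξ, ξ⟫_ℂ).re = 0 := by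
          rw [← inner_conj_symm, Complex.conj_re]
          exact h1 ξ
        rw [Complex.le_def] at h5
        exact Complex.ext h6 h5.2.symm
      have h7 := (inner_map_self_eq_zero (E (star (w - z) * (w - z)) : H →ₗ[ℂ] H)).1 h4
      exact ContinuousLinearMap.ext fun ξ => congrArg (fun T : H →ₗ[ℂ] H => T ξ) h7
    exact sub_eq_zero.1 (hfaith _ hdM h3)
  have hcomm : ∀ u ∈ unitary (H →L[ℂ] H), u ∈ N → z * u = u * z := by
    intro u hu huN
    have h1 := huniq (u * z * star u) (hconj u hu huN z hzK)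
    calc z * u = u * z * star u * u := by rw [h1]
      _ = u * z := by rw [mul_assoc, Unitary.star_mul_self_of_mem hu, mul_one]
  have hall : ∀ y ∈ N, z * y = y * z := fun y hy =>
    Pool.Agent.W101.WD.comm_of_unitary N ∅ (fun a ha => absurd ha (Set.notMem_empty a)) z
      (fun u hu huN _ => hcomm u hu huN) y hy (fun a ha => absurd ha (Set.notMem_empty a))
  exact ⟨z, hzK.1, (hKM z hzK.1).1, hall⟩

end Pool.Agent.W988.WD
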